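import Pool.Agent.U707.LI.Defs
import Pool.Agent.U612.LI.LFC

/-!
# Meromorphic continuation from any combination of eigensystems on a set of places of positive density

`E` is an elliptic curve over an arbitrary number field `K`, without complex multiplication over any
extension, and `L(E, s)` the Euler product of the problem. `R_i` are finitely many two-dimensional
`p`-adic representations (for instance those of Hilbert or Bianchi newforms, of any weights, levels
and characters), and `c_i` arbitrary coefficients in `ℚ̄_p`. Suppose that
`a_v(E) = ∑ c_i tr R_i(Frob_v)` for the places `v` of a set of positive upper density, for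
instance that `a_v(E)` is the `v`-th Fourier coefficient of a cusp form which is not necessarily an
eigenform. If the `L`-functions of the twists of the `R_i` with `c_i ≠ 0` by characters of finite
order which have the determinant of `E` (weight two, trivial character) continue meromorphically,
then so does `L(E, s)`.

Parts of the proof are by helper140, helper784, helper187, helper612, helper94, helper200 (see
`Pool.Agent.U707.LI.All`).
-/

set_option autoImplicit false

namespace Pool.Agent.Results.MP_0d9be2_nt.CombinationOfEigenforms

open NumberField IsDedekindDomain Module Pool.Agent.W401.Cheb Pool.Agent.U707 Pool.Agent.U707.LI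

/-- **Meromorphic continuation from any combination of eigensystems.** -/
theorem result {K : Type} [Field K] [NumberField K]
    -- the elliptic curve, its minimal models and its `p`-adic representation
    (E : WeierstrassCurve K) (hE : E.IsElliptic)
    (M : HeightOneSpectrum (𝓞 K) → WeierstrassCurve (𝓞 K)) (hM : MinimalModels E M)
    {p : ℕ} [Fact p.Prime] (V : LI.Rep K (PadicAlgCl p)) (hV : V.StronglyIrreducible)
    (hEV : IsH1 M V)
    -- the two-dimensional representations and the relation
    (θ : PadicAlgCl p ≃+* ℂ) {ι : Type} [Fintype ι] (R : ι → LI.Rep K (PadicAlgCl p))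
    (hR2 : ∀ i, finrank (PadicAlgCl p) (R i).V = 2) (c : ι → PadicAlgCl p)
    {P : Set (HeightOneSpectrum (𝓞 K))} (hP : PosDensity P)
    (h : ∀ v ∈ P, ∀ φ, GeoFrob v φ → (av M v : PadicAlgCl p) = ∑ i, c i * (R i).tr φ)
    -- the twists of the `R i`
    (hL : ∀ i, c i ≠ 0 → TwistsContinue θ V (R i)) :
    ∃ f : ℂ → ℂ, MeromorphicOn f Set.univ ∧ ∀ s : ℂ, 3 / 2 < s.re → f s = LSeries M s :=
  meroThm sHAAR sCHEB sTRANS sIND sTW Pool.Agent.U612.LI.t_LFC E hE M hM V hEV.1 hV hEV.2 θ R hR2
    c hP h hL

end Pool.Agent.Results.MP_0d9be2_nt.CombinationOfEigenforms
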