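import Pool.Agent.U216.NC.Fam

/-!
# Relations between the edge values of L-series of elliptic curves

`E_j` over `K_j` (`j` in a finite set) are elliptic curves over number fields.  The Euler products
`L(E_j, s)` converge for `Re s > 3/2`, and outside a set of heights of Hausdorff dimension `0` they
have boundary values `l_j(τ) ≠ 0` at the points `3/2 + iτ` of the edge.  The theorem says that these
values satisfy no relation, not even approximately and on a set of heights of positive density,
unless there is an identity: a product of integral powers of the `L(E_j, s)` is a finite product of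
Euler factors.  For one curve no such identity exists.  In this way very weak statistical relations
between `L(E_i, s)` and L-series with a known meromorphic continuation give the meromorphic
continuation of a power of `L(E_i, s)`.
-/

set_option autoImplicit false

namespace Pool.Agent.Results.MP_0d9be2_nt.EdgeRelations

open NumberField IsDedekindDomain MeasureTheory Filter Topology

/-- `W v` is, for every finite place `v`, an integral model of `E` with discriminant minimal at
`v`. -/
def MinimalModels {K : Type} [Field K] [NumberField K] (E : WeierstrassCurve K)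
    (W : HeightOneSpectrum (𝓞 K) → WeierstrassCurve (𝓞 K)) : Prop :=
  ∀ v : HeightOneSpectrum (𝓞 K),
    (∃ C : WeierstrassCurve.VariableChange K, C • (W v).map (algebraMap (𝓞 K) K) = E) ∧
    ∀ W' : WeierstrassCurve (𝓞 K),
      (∃ C : WeierstrassCurve.VariableChange K, C • W'.map (algebraMap (𝓞 K) K) = E) →
      ∀ n : ℕ, (W v).Δ ∈ v.asIdeal ^ n → W'.Δ ∈ v.asIdeal ^ n

open Classical in
/-- The Euler factor at `v`, `(1 - a_v Nv^{-s} + Nv^{1-2s})⁻¹` if the reduction at `v` is good and
`(1 - a_v Nv^{-s})⁻¹` if it is bad, where `a_v` is `Nv` minus the number of affine points of the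
reduction of `W v` (for bad reduction this is `1`, `-1`, `0` in the split multiplicative, non-split
multiplicative, additive case). -/
noncomputable def localFactor {K : Type} [Field K] [NumberField K]
    (W : HeightOneSpectrum (𝓞 K) → WeierstrassCurve (𝓞 K)) (v : HeightOneSpectrum (𝓞 K))
    (s : ℂ) : ℂ :=
  (1 - ((Ideal.absNorm v.asIdeal : ℂ)
        - (Nat.card {xy : (𝓞 K ⧸ v.asIdeal) × (𝓞 K ⧸ v.asIdeal) //
            ((W v).map (Ideal.Quotient.mk v.asIdeal)).toAffine.Equation xy.1 xy.2} : ℂ))
        * (Ideal.absNorm v.asIdeal : ℂ) ^ (-s)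
    + (if (W v).Δ ∈ v.asIdeal then 0 else (Ideal.absNorm v.asIdeal : ℂ))
        * (Ideal.absNorm v.asIdeal : ℂ) ^ (-2 * s))⁻¹

/-- The `L`-series, as the Euler product over all finite places. -/
noncomputable def LSeries {K : Type} [Field K] [NumberField K]
    (W : HeightOneSpectrum (𝓞 K) → WeierstrassCurve (𝓞 K)) (s : ℂ) : ℂ :=
  ∏' v : HeightOneSpectrum (𝓞 K), localFactor W v s

/-- The point `3/2 + iτ` of the edge. -/
noncomputable def edge (τ : ℝ) : ℂ := 3 / 2 + τ * Complex.I

/-- The angle `|s - (3/2 + iτ)| ≤ C (Re s - 3/2)` in the half-plane `Re s > 3/2`. -/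
def angle (τ C : ℝ) : Set ℂ :=
  {s : ℂ | 3 / 2 < s.re ∧ ‖s - edge τ‖ ≤ C * (s.re - 3 / 2)}

/-- A function meromorphic at every point of `U` agrees with `F` for `Re s > 3/2`. -/
def Continues (F : ℂ → ℂ) (U : Set ℂ) : Prop :=
  ∃ f : ℂ → ℂ, MeromorphicOn f U ∧ ∀ s : ℂ, 3 / 2 < s.re → f s = F s

/-- For every `ε > 0` there are `δ > 0` and `T₀` such that in every interval of length `T ≥ T₀` the
numbers `u` with `|f(u)| ≤ δ` form a set of measure at most `ε T`. -/
def RarelySmall (f : ℝ → ℝ) : Prop :=
  ∀ ε : ℝ, 0 < ε → ∃ δ : ℝ, 0 < δ ∧ ∃ T₀ : ℝ, 0 < T₀ ∧ ∀ T : ℝ, T₀ ≤ T → ∀ t : ℝ,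
    volume ({u : ℝ | |f u| ≤ δ} ∩ Set.Icc t (t + T)) ≤ ENNReal.ofReal (ε * T)

/-- `∏ L(E_j, s)^{n_j}` is a finite product of Euler factors: there are finite sets `S_j` of places
of `K_j` such that, for `Re s > 3/2`, this product equals the product of the `n_j`-th powers of the
Euler factors of `E_j` at the places in `S_j`. -/
def Relation {ι : Type} [Fintype ι] {K : ι → Type} [∀ j, Field (K j)] [∀ j, NumberField (K j)]
    (W : ∀ j, HeightOneSpectrum (𝓞 (K j)) → WeierstrassCurve (𝓞 (K j))) (n : ι → ℤ) : Prop :=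
  ∃ S : ∀ j, Finset (HeightOneSpectrum (𝓞 (K j))), ∀ s : ℂ, 3 / 2 < s.re →
    ∏ j, LSeries (W j) s ^ n j = ∏ j, (∏ v ∈ S j, localFactor (W j) v s) ^ n j

/-- **Relations between edge values are identities.**  Let `E_j` (`j ∈ ι`) be finitely many elliptic
curves over number fields `K_j`.  There are a set `N` of real numbers of Hausdorff dimension `0` and
complex numbers `l_j(τ)` such that for real `τ ∉ N` and all `j`: `l_j(τ) ≠ 0` and `L(E_j, s)` tends
to `l_j(τ)` as `s` tends to `3/2 + iτ` in any angle in the half-plane `Re s > 3/2`; and: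

1. Either `g(l(τ))` is rarely small for every continuous real function `g` on `ℂ^ι` whose zeros form
a set of Lebesgue measure `0`, or some product `∏ L(E_j, s)^{n_j}` with integers `n_j`, not all
equal to `0`, is a finite product of Euler factors.
2. For every single curve `E_j`, `g(l_j(τ))` is rarely small for every continuous real function `g`
on `ℂ` whose zeros form a set of Lebesgue measure `0`.
3. The functions `g` of part 1 include all nonzero real polynomials in the real and the imaginary
parts.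
4. Let `U` be a set of complex numbers and let `L(E_j, s)` continue meromorphically to `U` for all
`j ≠ i`; let no product `∏ L(E_j, s)^{n_j}` with integers `n_j`, not all `0`, and `n_i = 0` be a
finite product of Euler factors.  If for some `g` as in part 1 the function `g(l(τ))` is not rarely
small, then a power `L(E_i, s)^m`, `m ≥ 1`, continues meromorphically to `U`. -/
theorem result {ι : Type} [Fintype ι] (K : ι → Type) [∀ j, Field (K j)] [∀ j, NumberField (K j)]
    (E : ∀ j, WeierstrassCurve (K j)) [∀ j, (E j).IsElliptic]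
    (W : ∀ j, HeightOneSpectrum (𝓞 (K j)) → WeierstrassCurve (𝓞 (K j)))
    (hW : ∀ j, MinimalModels (E j) (W j)) :
    ∃ (N : Set ℝ) (l : ℝ → ι → ℂ), dimH N = 0 ∧
      (∀ τ : ℝ, τ ∉ N → ∀ j, l τ j ≠ 0 ∧
        ∀ C : ℝ, Tendsto (LSeries (W j)) (𝓝[angle τ C] (edge τ)) (𝓝 (l τ j))) ∧
      ((∀ g : (ι → ℂ) → ℝ, Continuous g → volume {z | g z = 0} = 0 →
          RarelySmall fun τ => g (l τ)) ∨
        ∃ n : ι → ℤ, n ≠ 0 ∧ Relation W n) ∧
      (∀ j, ∀ g : ℂ → ℝ, Continuous g → volume {z | g z = 0} = 0 →
        RarelySmall fun τ => g (l τ j)) ∧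
      (∀ P : MvPolynomial (ι ⊕ ι) ℝ, P ≠ 0 →
        Continuous (fun z : ι → ℂ =>
          MvPolynomial.eval (Sum.elim (fun j => (z j).re) (fun j => (z j).im)) P) ∧
        volume {z : ι → ℂ |
          MvPolynomial.eval (Sum.elim (fun j => (z j).re) (fun j => (z j).im)) P = 0} = 0) ∧
      ∀ (i : ι) (U : Set ℂ), (∀ j, j ≠ i → Continues (LSeries (W j)) U) →
        (∀ n : ι → ℤ, n i = 0 → Relation W n → n = 0) →
        (∃ g : (ι → ℂ) → ℝ, Continuous g ∧ volume {z | g z = 0} = 0 ∧
          ¬ RarelySmall fun τ => g (l τ)) →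
        ∃ m : ℕ, 0 < m ∧ Continues (fun s => LSeries (W i) s ^ m) U := by
  classical
  have hlf : ∀ j v s, localFactor (W j) v s = Pool.Agent.TH339.MP.elf (W j) v s := by
    intro j v s
    have h1 : (Nat.card {xy : (𝓞 (K j) ⧸ v.asIdeal) × (𝓞 (K j) ⧸ v.asIdeal) //
            ((W j v).map (Ideal.Quotient.mk v.asIdeal)).toAffine.Equation xy.1 xy.2}) =
        Pool.Agent.TH339.MP.affc ((W j v).map (Ideal.Quotient.mk v.asIdeal)) := by
      unfold Pool.Agent.TH339.MP.affc
      refine Nat.card_congr (Equiv.subtypeEquivRight fun q => ?_)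
      exact WeierstrassCurve.Affine.equation_iff ..
    unfold localFactor Pool.Agent.TH339.MP.elf Pool.Agent.TH339.MP.lfac Pool.Agent.TH339.MP.av
      Pool.Agent.TH339.MP.nm
    rw [h1]
    push_cast
    rfl
  have hL : ∀ j s, LSeries (W j) s = ∏' v, Pool.Agent.TH339.MP.elf (W j) v s :=
    fun j s => tprod_congr fun v => hlf j v s
  choose b hb using fun j => Pool.Agent.U216.NC.exists_data (W j)
  have hrel : ¬ Pool.Agent.U216.NC.Indep (Pool.Agent.U216.NC.bk b) →
      ∃ n : ι → ℤ, n ≠ 0 ∧ Relation W n := by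
    intro h
    obtain ⟨n, hn, S, hS⟩ := Pool.Agent.U216.NC.rel hb h
    refine ⟨n, hn, S, fun s hs => ?_⟩
    simp only [hL, hlf]
    exact hS s hs
  have halt : Pool.Agent.U216.NC.Indep (Pool.Agent.U216.NC.bk b) →
      ∀ g : (ι → ℂ) → ℝ, Continuous g → volume {z | g z = 0} = 0 →
          RarelySmall fun τ => g (Pool.Agent.U216.NC.lv' W b τ) :=
    fun h g hg hg0 ε hε => Pool.Agent.U216.NC.alt hb h hg hg0 hε
  refine ⟨Pool.Agent.U216.NC.NS b, Pool.Agent.U216.NC.lv' W b,
    Pool.Agent.U216.NC.dimH_NS (Pool.Agent.U216.NC.bound_MM hb), ?_, ?_, ?_, ?_, ?_⟩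
  · intro τ hτ j
    refine ⟨Complex.exp_ne_zero _, fun C => ?_⟩
    unfold Pool.Agent.U216.NC.NS at hτ
    simp only [Set.mem_iUnion, not_exists] at hτ
    have h1 := (hb j).limit (hτ (Sum.inl j)) C
    refine h1.congr fun s => (hL j s).symm
  · by_cases h : Pool.Agent.U216.NC.Indep (Pool.Agent.U216.NC.bk b)
    · exact Or.inl (halt h)
    · exact Or.inr (hrel h)
  · intro j g hg hg0 ε hε
    have hind : Pool.Agent.U216.NC.Indep (Pool.Agent.U216.NC.bk fun _ : Unit => b j) := by
      refine Pool.Agent.U216.NC.indep_single fun G hG => ?_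
      obtain ⟨v, hv, hgood⟩ := Pool.Agent.U216.NC.exists_good (E j) (W j) (hW j)
        (G ∪ (Pool.Agent.U216.NC.R23 : Set Nat.Primes))
        (hG.union (Finset.finite_toSet _))
      rw [Set.mem_union, not_or] at hv
      exact ⟨_, hv.1, (hb j).ne v hv.2 hgood⟩
    have hg1 : Continuous fun z : Unit → ℂ => g (z ()) := hg.comp (continuous_apply ())
    have hg2 : volume {z : Unit → ℂ | g (z ()) = 0} = 0 := by
      have h2 := (volume_preserving_funUnique Unit ℂ).measure_preimage_equiv {z | g z = 0}
      rw [hg0] at h2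
      exact h2
    exact Pool.Agent.U216.NC.alt (K := fun _ : Unit => K j) (W := fun _ : Unit => W j)
      (b := fun _ : Unit => b j) (fun _ => hb j) hind hg1 hg2 hε
  · intro P hP
    refine ⟨?_, Pool.Agent.U216.NC.poly_null hP⟩
    refine (MvPolynomial.continuous_eval P).comp (continuous_pi ?_)
    rintro (j | j)
    · exact Complex.continuous_re.comp (continuous_apply j)
    · exact Complex.continuous_im.comp (continuous_apply j)
  · rintro i U hU hno ⟨g, hg, hg0, hns⟩
    have hnot : ¬ Pool.Agent.U216.NC.Indep (Pool.Agent.U216.NC.bk b) :=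
      fun h => hns (halt h g hg hg0)
    obtain ⟨n, hn, hR⟩ := hrel hnot
    have hi : n i ≠ 0 := fun h0 => hn (hno n h0 hR)
    obtain ⟨S, hS⟩ := hR
    simp only [hL, hlf] at hS
    obtain ⟨f, hf, hfL⟩ := Pool.Agent.U216.NC.cont hb (i := i) hS (U := U) (fun j hj => by
      obtain ⟨f, hf, hfL⟩ := hU j hj
      exact ⟨f, hf, fun s hs => by rw [hfL s hs, hL]⟩)
    refine ⟨(n i).natAbs, Int.natAbs_pos.2 hi, f, hf, fun s hs => ?_⟩
    simp only [hfL s hs, hL]

end Pool.Agent.Results.MP_0d9be2_nt.EdgeRelations
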