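import Pool.Agent.R433.MD.GalRel

/-!
# Meromorphic continuation of the `L`-series of elliptic curves: a local-global principle and the
# reduction to hyperelementary extensions

`L(E/K, s)` is the Euler product of the problem.

1. A local-global principle. Let `L/K` be a Galois extension of number fields, `E` an elliptic curve over
   `K` and `U` any set. Call an intermediate field `F` good if `L(E/F', s)` has a meromorphic
   continuation to `U` for all `F'` with `F ⊆ F' ⊆ L`. Let `P` be a set of prime numbers. Suppose that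
   for every `g ∈ Gal(L/K)` some good `F` has an embedding over `K` into the fixed field of `g`, and
   that for every `g` and every `p ∈ P` there is a good `F` for which the number of these embeddings is
   not divisible by `p`. Then `L(E/K, s)^m` has a meromorphic continuation to `U` for some `m > 0` which
   is not divisible by any `p ∈ P`; if `P` is the set of all primes then `L(E/K, s)` itself has one.
   The embeddings of `F` into the fixed field of `g` are the places of degree one of `F` above a
   place of `K` with Frobenius automorphism `g`: the continuation of `L(E/K, s)` is a local question, at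
   the places of `K` and the prime numbers `p`.
2. If `L(E/F, s)` has a meromorphic continuation to `U` for all intermediate fields `F` for which the
   group `Gal(L/F)` is hyperelementary, then so has `L(E/K, s)`. (`G` is hyperelementary if it has a
   cyclic normal subgroup of order prime to `p` whose quotient is a `p`-group, for some prime `p`.)
3. If two intermediate fields `F`, `F'` of `L/K` have the same number of embeddings over `K` into every
   fixed field of an element (arithmetically equivalent fields), then `L(E/F, s)` has a meromorphic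
   continuation to `U` if and only if `L(E/F', s)` has one.
4. For coprime `m`, `n ≥ 1`, Question 1 of the problem (for all number fields) is equivalent to its
   restriction to the number fields `F` for which `[F : ℚ]` is divisible by `m` or by `n` and for which
   there is an extension `L` of `F` which is a Galois extension of `ℚ` with `Gal(L/F)` hyperelementary,
   in particular solvable. (For a general field `F` of degree at least six the group `Gal(L/F)` is not
   solvable for any `L`.)

The proof: the criterion for the trivial character, multiplied by an integer `m` prime to `P`, to be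
a combination of characters induced from the trivial characters of subgroups in a given family (the ring
of these combinations is a subring of the ring of class functions, and one looks at its prime ideals),
the relations between the `L`-series over the intermediate fields, with the Euler factors of the
different minimal models (files `Pool/Agent/R433/MD` of the starting library), and for 4 the descent of
the starting library from degrees divisible by `m` and by `n`.
-/

set_option autoImplicit false

namespace Pool.Agent.Results.MP_0d9be2_nt.HyperelementaryDescent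

open NumberField IsDedekindDomain

/-- `W v` is, for every finite place `v`, an integral model of `E` with discriminant minimal at
`v`. -/
def MinimalModels {K : Type} [Field K] [NumberField K] (E : WeierstrassCurve K)
    (W : HeightOneSpectrum (𝓞 K) → WeierstrassCurve (𝓞 K)) : Prop :=
  ∀ v : HeightOneSpectrum (𝓞 K),
    (∃ C : WeierstrassCurve.VariableChange K, C • (W v).map (algebraMap (𝓞 K) K) = E) ∧
    ∀ W' : WeierstrassCurve (𝓞 K),
      (∃ C : WeierstrassCurve.VariableChange K, C • W'.map (algebraMap (𝓞 K) K) = E) →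
      ∀ n : ℕ, (W v).Δ ∈ v.asIdeal ^ n → W'.Δ ∈ v.asIdeal ^ n

open Classical in
/-- The Euler factor at `v`, `(1 - a_v Nv^{-s} + Nv^{1-2s})⁻¹` if the reduction at `v` is good and
`(1 - a_v Nv^{-s})⁻¹` if it is bad, where `a_v` is `Nv` minus the number of affine points of the
reduction of `W v`. -/
noncomputable def localFactor {K : Type} [Field K] [NumberField K]
    (W : HeightOneSpectrum (𝓞 K) → WeierstrassCurve (𝓞 K)) (v : HeightOneSpectrum (𝓞 K))
    (s : ℂ) : ℂ :=
  (1 - ((Ideal.absNorm v.asIdeal : ℂ)
        - (Nat.card {xy : (𝓞 K ⧸ v.asIdeal) × (𝓞 K ⧸ v.asIdeal) //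
            ((W v).map (Ideal.Quotient.mk v.asIdeal)).toAffine.Equation xy.1 xy.2} : ℂ))
        * (Ideal.absNorm v.asIdeal : ℂ) ^ (-s)
    + (if (W v).Δ ∈ v.asIdeal then 0 else (Ideal.absNorm v.asIdeal : ℂ))
        * (Ideal.absNorm v.asIdeal : ℂ) ^ (-2 * s))⁻¹

/-- The `L`-series, as the Euler product over all finite places. -/
noncomputable def LSeries {K : Type} [Field K] [NumberField K]
    (W : HeightOneSpectrum (𝓞 K) → WeierstrassCurve (𝓞 K)) (s : ℂ) : ℂ :=
  ∏' v : HeightOneSpectrum (𝓞 K), localFactor W v s

/-- `L(E/K, s) ^ n` has a meromorphic continuation to the set `U`, whatever the minimal models. -/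
def Continues {K : Type} [Field K] [NumberField K] (E : WeierstrassCurve K) (n : ℕ)
    (U : Set ℂ) : Prop :=
  ∀ W : HeightOneSpectrum (𝓞 K) → WeierstrassCurve (𝓞 K), MinimalModels E W →
    ∃ f : ℂ → ℂ, MeromorphicOn f U ∧ ∀ s : ℂ, 3 / 2 < s.re → f s = LSeries W s ^ n

/-- The assertion of Question 1 for the number field `K`: for all elliptic curves `E` over `K`,
`L(E/K, s)` has a meromorphic continuation to `ℂ`. -/
def HoldsOver (K : Type) [Field K] [NumberField K] : Prop :=
  ∀ E : WeierstrassCurve K, E.IsElliptic → Continues E 1 Set.univ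

section bridge

open Pool.Agent.H341R2.EC (IsModel IsMinAt red aff trc dlt)
open Pool.Agent.R433.MD
open Pool.Agent.H921R2.TatePole (nm two_le_nm)

variable {K : Type} [Field K] [NumberField K]

omit [NumberField K] in
theorem isModel_iff (E : WeierstrassCurve K) (W : WeierstrassCurve (𝓞 K)) :
    (∃ C : WeierstrassCurve.VariableChange K, C • W.map (algebraMap (𝓞 K) K) = E) ↔
      IsModel E W := by
  constructor
  · rintro ⟨C, hC⟩
    exact ⟨C⁻¹, by rw [← hC, inv_smul_smul]⟩
  · rintro ⟨C, hC⟩
    exact ⟨C⁻¹, by rw [← hC, inv_smul_smul]⟩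

theorem minimalModels_iff (E : WeierstrassCurve K)
    (V : HeightOneSpectrum (𝓞 K) → WeierstrassCurve (𝓞 K)) :
    MinimalModels E V ↔ ∀ v, IsMinAt E v (V v) := by
  unfold MinimalModels IsMinAt
  simp only [isModel_iff]

theorem factor_eq (V : HeightOneSpectrum (𝓞 K) → WeierstrassCurve (𝓞 K)) (s : ℂ)
    (v : HeightOneSpectrum (𝓞 K)) : localFactor V v s = (lf V s v)⁻¹ := by
  unfold localFactor
  congr 1
  unfold lf trc dlt
  have h0 : ((nm v : ℕ) : ℂ) ≠ 0 := by
    have := two_le_nm v
    exact_mod_cast (by omega : nm v ≠ 0)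
  have e1 : Nat.card {xy : (𝓞 K ⧸ v.asIdeal) × (𝓞 K ⧸ v.asIdeal) //
      ((V v).map (Ideal.Quotient.mk v.asIdeal)).toAffine.Equation xy.1 xy.2} =
      aff (red v (V v)) := by
    unfold aff red
    refine Nat.card_congr (Equiv.subtypeEquivRight fun xy => ?_)
    rw [WeierstrassCurve.Affine.equation_iff]
  have e2 : ((nm v : ℕ) : ℂ) ^ (1 - 2 * s) = ((nm v : ℕ) : ℂ) * ((nm v : ℕ) : ℂ) ^ (-2 * s) := by
    rw [sub_eq_add_neg, Complex.cpow_add _ _ h0, Complex.cpow_one]
    congr 2
    ring
  have e3 : (Ideal.absNorm v.asIdeal : ℂ) = ((nm v : ℕ) : ℂ) := rfl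
  rw [e1, e2, e3]
  push_cast
  split_ifs with h
  · ring
  · ring

theorem LSeries_eq (V : HeightOneSpectrum (𝓞 K) → WeierstrassCurve (𝓞 K)) (s : ℂ) :
    LSeries V s = LL V s := tprod_congr fun v => factor_eq V s v

theorem continues_iff {E : WeierstrassCurve K} (hE : E.IsElliptic) (n : ℕ) (U : Set ℂ) :
    Continues E n U ↔ Cont E U n := by
  constructor
  · intro h
    obtain ⟨V, hV⟩ := exists_minimal E hE
    obtain ⟨f, hf, hfL⟩ := h V ((minimalModels_iff E V).2 hV)
    exact ⟨V, hV, f, hf, fun s hs => by rw [hfL s hs, LSeries_eq]⟩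
  · rintro ⟨V, hV, Λ, hΛ, hL⟩ W hW
    obtain ⟨R, hR, hRL⟩ := models_unique hE W V ((minimalModels_iff E W).1 hW) hV
    have h2 : MeromorphicOn R U := fun x _ => hR x trivial
    refine ⟨fun s => R s ^ n * Λ s, (h2.fun_pow n).fun_mul hΛ, fun s hs => ?_⟩
    change R s ^ n * Λ s = LSeries W s ^ n
    rw [LSeries_eq, (hRL s hs).2, mul_pow, hL s hs]

end bridge

/-- The number of embeddings over `K` of the intermediate field `F` into the fixed field of `g`. -/
noncomputable def embeddings {K L : Type} [Field K] [Field L] [Algebra K L]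
    (F : IntermediateField K L) (g : Gal(L/K)) : ℕ :=
  Nat.card {τ : F →ₐ[K] L // ∀ x, g (τ x) = τ x}

/-- `L(E/F', s)` has a meromorphic continuation to `U` for all `F'` between `F` and `L`. -/
def Good {K L : Type} [Field K] [NumberField K] [Field L] [NumberField L] [Algebra K L]
    (E : WeierstrassCurve K) (U : Set ℂ) (F : IntermediateField K L) : Prop :=
  ∀ F' : IntermediateField K L, F ≤ F' → Continues (E.map (algebraMap K F')) 1 U

/-- For some prime `p` the group `G` has a cyclic normal subgroup of order prime to `p` whose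
quotient is a `p`-group. -/
def Hyperelementary (G : Type) [Group G] : Prop :=
  ∃ p : ℕ, p.Prime ∧ ∃ C : Subgroup G, C.Normal ∧ IsCyclic C ∧ (Nat.card C).Coprime p ∧
    ∀ g : G, ∃ k : ℕ, g ^ p ^ k ∈ C

/-- The number field `F` has an extension `L` which is Galois over `ℚ` with a hyperelementary
group `Gal(L/F)`. -/
def HasHyperelementaryClosure (F : Type) [Field F] [NumberField F] : Prop :=
  ∃ (L : Type) (_ : Field L) (_ : NumberField L) (_ : Algebra F L), IsGalois ℚ L ∧
    Hyperelementary Gal(L/F)

section groups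

open Pool.Agent.R433.MD (IsHyper)

theorem hyper_of {G : Type} [Group G] {H : Subgroup G} {p : ℕ} (hp : p.Prime)
    (h : IsHyper p H) : Hyperelementary H := by
  obtain ⟨C, hC, hcyc, hcop, hnorm, hpow⟩ := h
  refine ⟨p, hp, C.subgroupOf H, ⟨fun c hc g => ?_⟩, ?_, ?_, fun g => ?_⟩
  · rw [Subgroup.mem_subgroupOf] at hc ⊢
    exact hnorm g g.2 c hc
  · exact isCyclic_of_injective (Subgroup.subgroupOfEquivOfLe hC).toMonoidHom
      (Subgroup.subgroupOfEquivOfLe hC).injective
  · rwa [Nat.card_congr (Subgroup.subgroupOfEquivOfLe hC).toEquiv]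
  · obtain ⟨k, hk⟩ := hpow g g.2
    exact ⟨k, by rw [Subgroup.mem_subgroupOf]; exact hk⟩

theorem hyper_congr {G G' : Type} [Group G] [Group G'] (e : G ≃* G') (h : Hyperelementary G) :
    Hyperelementary G' := by
  obtain ⟨p, hp, C, hC, hcyc, hcop, hpow⟩ := h
  let e' : C ≃* C.map e.toMonoidHom := C.equivMapOfInjective _ e.injective
  refine ⟨p, hp, C.map e.toMonoidHom, hC.map _ e.surjective, ?_, ?_, fun g => ?_⟩
  · exact isCyclic_of_surjective e'.toMonoidHom e'.surjective
  · rw [← Nat.card_congr e'.toEquiv]
    exact hcop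
  · obtain ⟨k, hk⟩ := hpow (e.symm g)
    refine ⟨k, _, hk, ?_⟩
    simp

theorem hyper_cyclic {G : Type} [Group G] [Finite G] {H : Subgroup G} (h : IsCyclic H) :
    IsHyper 2 H := by
  obtain ⟨⟨g, hgH⟩, hg⟩ := h.exists_generator
  have hg' : ∀ x ∈ H, ∃ i : ℤ, g ^ i = x := by
    intro x hx
    obtain ⟨i, hi⟩ := hg ⟨x, hx⟩
    exact ⟨i, by simpa using congrArg Subtype.val hi⟩
  obtain ⟨a, m, hpm, hn⟩ := Nat.exists_eq_pow_mul_and_not_dvd (orderOf_pos g).ne' 2 (by norm_num)
  have htm : (g ^ 2 ^ a) ^ m = 1 := by
    rw [← pow_mul, ← hn, pow_orderOf_eq_one]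
  refine ⟨Subgroup.zpowers (g ^ 2 ^ a), ?_, inferInstance, ?_, ?_, ?_⟩
  · rw [Subgroup.zpowers_le]
    exact H.pow_mem hgH _
  · rw [Nat.card_zpowers]
    exact Nat.Coprime.coprime_dvd_left (orderOf_dvd_of_pow_eq_one htm)
      ((Nat.Prime.coprime_iff_not_dvd Nat.prime_two).2 hpm).symm
  · intro x hx c hc
    obtain ⟨i, rfl⟩ := hg' x hx
    obtain ⟨j, rfl⟩ := hc
    have h1 : Commute (g ^ i) ((g ^ 2 ^ a) ^ j) :=
      (((Commute.refl g).pow_right _).zpow_right j).zpow_left i
    change g ^ i * (g ^ 2 ^ a) ^ j * (g ^ i)⁻¹ ∈ _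
    rw [h1.mul_inv_cancel]
    exact Subgroup.zpow_mem _ (Subgroup.mem_zpowers _) j
  · intro x hx
    obtain ⟨i, rfl⟩ := hg' x hx
    refine ⟨a, i, ?_⟩
    change (g ^ 2 ^ a) ^ i = (g ^ i) ^ 2 ^ a
    rw [← zpow_natCast, ← zpow_natCast, ← zpow_mul, ← zpow_mul, mul_comm]

theorem one_of {m : ℕ} (h : ∀ p ∈ (Set.univ : Set ℕ), p.Prime → ¬ p ∣ m) : m = 1 :=
  Nat.eq_one_iff_not_exists_prime_dvd.2 fun p hp => h p trivial hp

end groups

section fields

open Pool.Agent.R433.MD

variable {K L : Type} [Field K] [NumberField K] [Field L] [NumberField L] [Algebra K L]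

theorem good_iff {E : WeierstrassCurve K} (hE : E.IsElliptic) (U : Set ℂ)
    (F : IntermediateField K L) :
    Good E U F ↔ ∀ F' : IntermediateField K L, F ≤ F' → Cont (E.map (algebraMap K F')) U 1 :=
  forall₂_congr fun _ _ => continues_iff inferInstance 1 U

variable [IsGalois K L]

/-- the local-global principle, for powers -/
theorem local_pow (E : WeierstrassCurve K) (hE : E.IsElliptic) (U : Set ℂ) (P : Set ℕ)
    (h0 : ∀ g : Gal(L/K), ∃ F : IntermediateField K L, embeddings F g ≠ 0 ∧ Good E U F)
    (hP : ∀ g : Gal(L/K), ∀ p ∈ P, p.Prime →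
      ∃ F : IntermediateField K L, ¬ p ∣ embeddings F g ∧ Good E U F) :
    ∃ m : ℕ, 0 < m ∧ (∀ p ∈ P, p.Prime → ¬ p ∣ m) ∧ Continues E m U := by
  obtain ⟨m, hm, hmP, hC⟩ := gal_local (L := L) E hE U P
    (fun g => by
      obtain ⟨F, h1, h2⟩ := h0 g
      exact ⟨F, h1, (good_iff hE U F).1 h2⟩)
    (fun g p hp hpp => by
      obtain ⟨F, h1, h2⟩ := hP g p hp hpp
      exact ⟨F, h1, (good_iff hE U F).1 h2⟩)
  exact ⟨m, Nat.pos_of_ne_zero hm, hmP, (continues_iff hE m U).2 hC⟩

/-- the local-global principle -/
theorem local_one (E : WeierstrassCurve K) (hE : E.IsElliptic) (U : Set ℂ)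
    (hP : ∀ g : Gal(L/K), ∀ p : ℕ, p.Prime →
      ∃ F : IntermediateField K L, ¬ p ∣ embeddings F g ∧ Good E U F) : Continues E 1 U := by
  obtain ⟨m, -, hmP, hC⟩ := local_pow (L := L) E hE U Set.univ
    (fun g => by
      obtain ⟨F, h1, h2⟩ := hP g 2 Nat.prime_two
      exact ⟨F, fun h => h1 (by rw [h]; exact dvd_zero 2), h2⟩)
    (fun g p _ hpp => hP g p hpp)
  rwa [one_of hmP] at hC

/-- hyperelementary extensions -/
theorem hyper_one (E : WeierstrassCurve K) (hE : E.IsElliptic) (U : Set ℂ)
    (h : ∀ F : IntermediateField K L, Hyperelementary Gal(L/F) →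
      Continues (E.map (algebraMap K F)) 1 U) : Continues E 1 U := by
  obtain ⟨m, -, hmP, hC⟩ := gal_hyper K L Set.univ
  rw [one_of hmP] at hC
  rw [continues_iff hE]
  refine hC E hE U fun H hH => (continues_iff inferInstance 1 U).1 (h _ ?_)
  have h1 : Hyperelementary H := by
    rcases hH with hH | ⟨p, -, hp, hH⟩
    · exact hyper_of Nat.prime_two (hyper_cyclic hH)
    · exact hyper_of hp hH
  exact hyper_congr (IntermediateField.subgroupEquivAlgEquiv H) h1

/-- arithmetically equivalent fields -/
theorem equiv_fields (E : WeierstrassCurve K) (hE : E.IsElliptic) (U : Set ℂ)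
    (F F' : IntermediateField K L) (h : ∀ g : Gal(L/K), embeddings F g = embeddings F' g) :
    Continues (E.map (algebraMap K F)) 1 U ↔ Continues (E.map (algebraMap K F')) 1 U := by
  rw [continues_iff inferInstance, continues_iff inferInstance]
  exact ⟨cont_of_emb h E hE U, cont_of_emb (fun g => (h g).symm) E hE U⟩

end fields

/-- every number field has an extension which is Galois over `ℚ` -/
theorem exists_closure (K : Type) [Field K] [NumberField K] :
    ∃ (L : Type) (_ : Field L) (_ : NumberField L) (_ : Algebra K L), IsGalois ℚ L ∧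
      IsGalois K L := by
  have : Algebra.IsAlgebraic ℚ (AlgebraicClosure K) := Algebra.IsAlgebraic.trans ℚ K _
  have : IsAlgClosure ℚ (AlgebraicClosure K) := ⟨inferInstance, inferInstance⟩
  have hN : Normal ℚ (AlgebraicClosure K) := IsAlgClosure.normal ℚ _
  have hfd : FiniteDimensional ℚ (IntermediateField.normalClosure ℚ K (AlgebraicClosure K)) := inferInstance
  have hNL : Normal ℚ (IntermediateField.normalClosure ℚ K (AlgebraicClosure K)) := normalClosure.normal ℚ K (AlgebraicClosure K)
  have hG : IsGalois ℚ (IntermediateField.normalClosure ℚ K (AlgebraicClosure K)) := IsGalois.mk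
  have nf : NumberField (IntermediateField.normalClosure ℚ K (AlgebraicClosure K)) :=
    { to_charZero := inferInstance, to_finiteDimensional := by convert hfd }
  refine ⟨IntermediateField.normalClosure ℚ K (AlgebraicClosure K), inferInstance, nf, inferInstance, ?_, ?_⟩
  · convert hG
  · exact IsGalois.tower_top_of_isGalois ℚ K _

/-- **The local-global principle and the reduction to hyperelementary extensions.** -/
theorem result :
    -- 1. the local-global principle
    (∀ (K L : Type) [Field K] [NumberField K] [Field L] [NumberField L] [Algebra K L]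
        [IsGalois K L] (E : WeierstrassCurve K), E.IsElliptic → ∀ (U : Set ℂ) (P : Set ℕ),
      (∀ g : Gal(L/K), ∃ F : IntermediateField K L, embeddings F g ≠ 0 ∧ Good E U F) →
      (∀ g : Gal(L/K), ∀ p ∈ P, p.Prime →
        ∃ F : IntermediateField K L, ¬ p ∣ embeddings F g ∧ Good E U F) →
      ∃ m : ℕ, 0 < m ∧ (∀ p ∈ P, p.Prime → ¬ p ∣ m) ∧ Continues E m U) ∧
    (∀ (K L : Type) [Field K] [NumberField K] [Field L] [NumberField L] [Algebra K L]
        [IsGalois K L] (E : WeierstrassCurve K), E.IsElliptic → ∀ U : Set ℂ,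
      (∀ g : Gal(L/K), ∀ p : ℕ, p.Prime →
        ∃ F : IntermediateField K L, ¬ p ∣ embeddings F g ∧ Good E U F) →
      Continues E 1 U) ∧
    -- 2. hyperelementary extensions
    (∀ (K L : Type) [Field K] [NumberField K] [Field L] [NumberField L] [Algebra K L]
        [IsGalois K L] (E : WeierstrassCurve K), E.IsElliptic → ∀ U : Set ℂ,
      (∀ F : IntermediateField K L, Hyperelementary Gal(L/F) →
        Continues (E.map (algebraMap K F)) 1 U) → Continues E 1 U) ∧
    -- 3. arithmetically equivalent fields
    (∀ (K L : Type) [Field K] [NumberField K] [Field L] [NumberField L] [Algebra K L]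
        [IsGalois K L] (E : WeierstrassCurve K), E.IsElliptic → ∀ (U : Set ℂ)
        (F F' : IntermediateField K L), (∀ g : Gal(L/K), embeddings F g = embeddings F' g) →
      (Continues (E.map (algebraMap K F)) 1 U ↔ Continues (E.map (algebraMap K F')) 1 U)) ∧
    -- 4. Question 1
    (∀ m n : ℕ, 0 < m → 0 < n → Nat.Coprime m n →
      ((∀ (K : Type) [Field K] [NumberField K], HoldsOver K) ↔
        ∀ (F : Type) [Field F] [NumberField F],
          (m ∣ Module.finrank ℚ F ∨ n ∣ Module.finrank ℚ F) → HasHyperelementaryClosure F →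
          HoldsOver F)) := by
  refine ⟨fun K L _ _ _ _ _ _ E hE U P h0 hP => local_pow (L := L) E hE U P h0 hP,
    fun K L _ _ _ _ _ _ E hE U hP => local_one (L := L) E hE U hP,
    fun K L _ _ _ _ _ _ E hE U h => hyper_one (L := L) E hE U h,
    fun K L _ _ _ _ _ _ E hE U F F' h => equiv_fields E hE U F F' h,
    fun m n hm hn hmn => ⟨fun h F _ _ _ _ => h F, fun h K _ _ E hE => ?_⟩⟩
  obtain ⟨r, Z, hZ, hC⟩ := Pool.Agent.R433.MD.descent_two hm hn K
  rw [continues_iff hE]
  rw [Nat.Coprime.gcd_eq_one hmn] at hC
  refine hC E hE Set.univ fun i => (continues_iff inferInstance 1 _).1 ?_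
  obtain ⟨L, _, _, _, hGQ, hGK⟩ := exists_closure (Z i).F
  refine hyper_one (L := L) _ inferInstance Set.univ fun F hF => h F ?_ ⟨L, inferInstance,
    inferInstance, inferInstance, hGQ, hF⟩ _ inferInstance
  have e1 : Module.finrank ℚ (Z i).F = Module.finrank ℚ K * Module.finrank K (Z i).F :=
    (Module.finrank_mul_finrank ℚ K (Z i).F).symm
  have e2 : Module.finrank ℚ F = Module.finrank ℚ (Z i).F * Module.finrank (Z i).F F :=
    (Module.finrank_mul_finrank ℚ (Z i).F F).symm
  rw [e2, e1]
  rcases hZ i with h4 | h4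
  · exact Or.inl (Dvd.dvd.mul_right (Dvd.dvd.mul_left h4.1 _) _)
  · exact Or.inr (Dvd.dvd.mul_right (Dvd.dvd.mul_left h4.1 _) _)

end Pool.Agent.Results.MP_0d9be2_nt.HyperelementaryDescent
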