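import Pool.Agent.U156.OS.EKRes
import Pool.Agent.U156.OS.MerBoth

/-!
# A one-sided criterion for the meromorphic continuation of `L(E, s)`

`E` is an elliptic curve over a number field `K`, `a > 3/2` a point of the half-line of absolute convergence and `c < 3/2`.
The numbers

  `A_n(a, c) = ∑_{k=1}^{n} C(n-1, k-1) (2(a-c))^k L^{(k)}(E, a) / k!`, `A_0 = L(E, a)`,

are finite combinations of the derivatives of `L(E, s)` at the point `a`; in terms of the Dirichlet coefficients `x_N` of `L(E, s)`,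

  `A_n(a, c) = ∑_N x_N N^{-a} P_n(2(a-c) log N)`, `P_n(t) = ∑_{k=1}^{n} C(n-1, k-1) (-t)^k / k!` (a Laguerre polynomial).

The theorem: `L(E, s)` is meromorphic on `Re s > c` if and only if for each `ε > 0` some nontrivial real combination
`p_0 A_n + p_1 A_{n-1} + ... + p_d A_{n-d}` with constant coefficients is at least `- C exp(ε n)` for all `n`.  No bound from the other
side, no bound for the growth of the continuation and no bound for the number of poles is assumed.  So Q1 for `E` is a statement about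
one-sided bounds for `c = 0, -1, -2, ...`; if the meromorphic continuation to `Re s > c` fails, then all nontrivial combinations of this
kind are exponentially large with both signs, with the same rate.
-/

set_option autoImplicit false

namespace Pool.Agent.Results.MP_0d9be2_nt.OneSidedMeromorphic

open NumberField IsDedekindDomain Filter Topology

/-- `W v` is, for every finite place `v`, an integral model of `E` with discriminant minimal at
`v`. -/
def MinimalModels {K : Type} [Field K] [NumberField K] (E : WeierstrassCurve K)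
    (W : HeightOneSpectrum (𝓞 K) → WeierstrassCurve (𝓞 K)) : Prop :=
  ∀ v : HeightOneSpectrum (𝓞 K),
    (∃ C : WeierstrassCurve.VariableChange K, C • (W v).map (algebraMap (𝓞 K) K) = E) ∧
    ∀ W' : WeierstrassCurve (𝓞 K),
      (∃ C : WeierstrassCurve.VariableChange K, C • W'.map (algebraMap (𝓞 K) K) = E) →
      ∀ n : ℕ, (W v).Δ ∈ v.asIdeal ^ n → W'.Δ ∈ v.asIdeal ^ n

open Classical in
/-- The Euler factor at `v`, `(1 - a_v Nv^{-s} + Nv^{1-2s})⁻¹` if the reduction at `v` is good and
`(1 - a_v Nv^{-s})⁻¹` if it is bad, where `a_v` is `Nv` minus the number of affine points of the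
reduction of `W v` (for bad reduction this is `1`, `-1`, `0` in the split multiplicative, non-split
multiplicative, additive case). -/
noncomputable def localFactor {K : Type} [Field K] [NumberField K]
    (W : HeightOneSpectrum (𝓞 K) → WeierstrassCurve (𝓞 K)) (v : HeightOneSpectrum (𝓞 K))
    (s : ℂ) : ℂ :=
  (1 - ((Ideal.absNorm v.asIdeal : ℂ)
        - (Nat.card {xy : (𝓞 K ⧸ v.asIdeal) × (𝓞 K ⧸ v.asIdeal) //
            ((W v).map (Ideal.Quotient.mk v.asIdeal)).toAffine.Equation xy.1 xy.2} : ℂ))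
        * (Ideal.absNorm v.asIdeal : ℂ) ^ (-s)
    + (if (W v).Δ ∈ v.asIdeal then 0 else (Ideal.absNorm v.asIdeal : ℂ))
        * (Ideal.absNorm v.asIdeal : ℂ) ^ (-2 * s))⁻¹

/-- The `L`-function of `E`, as the Euler product over all finite places. -/
noncomputable def ellipticL {K : Type} [Field K] [NumberField K]
    (W : HeightOneSpectrum (𝓞 K) → WeierstrassCurve (𝓞 K)) (s : ℂ) : ℂ :=
  ∏' v : HeightOneSpectrum (𝓞 K), localFactor W v s

/-- `L` extends from `Re s > 3/2` to a meromorphic function on `Re s > c`. -/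
def Continues (L : ℂ → ℂ) (c : ℝ) : Prop :=
  ∃ g : ℂ → ℂ, MeromorphicOn g {s : ℂ | c < s.re} ∧ ∀ s : ℂ, 3 / 2 < s.re → g s = L s

/-- `A_n(a, c) = ∑_{k=1}^{n} C(n-1, k-1) (2(a-c))^k L^{(k)}(a) / k!`, `A_0(a, c) = L(a)` (real parts; for the functions below the
derivatives at `a` are real). -/
noncomputable def A (L : ℂ → ℂ) (a c : ℝ) (n : ℕ) : ℝ :=
  if n = 0 then (L a).re else
    ∑ k ∈ Finset.range n, ((n - 1).choose k : ℝ) * (2 * (a - c)) ^ (k + 1) *
      ((iteratedDeriv (k + 1) L a).re / (k + 1).factorial)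

/-- The Laguerre weight `P_n(t) = ∑_{k=1}^{n} C(n-1, k-1) (-t)^k / k!`, `P_0 = 1`. -/
noncomputable def P (n : ℕ) (t : ℝ) : ℝ :=
  if n = 0 then 1 else ∑ k ∈ Finset.range n, ((n - 1).choose k : ℝ) * ((-t) ^ (k + 1) / (k + 1).factorial)

/-- The combination `∑_{j + k = n} p_j A_k = p_0 A_n + p_1 A_{n-1} + ...` of consecutive terms of a sequence. -/
def combination (p : Polynomial ℝ) (A : ℕ → ℝ) (n : ℕ) : ℝ :=
  ∑ q ∈ Finset.HasAntidiagonal.antidiagonal n, p.coeff q.1 * A q.2

/-- **One-sided criterion for meromorphic continuation.**  Let `E` be an elliptic curve over a number field `K` and `a > 3/2`.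

1. All derivatives of `L(E, s)` at `a` are real, and if `L(E, s) = ∑ x_N N^{-s}` for `Re s > 3/2`, with real `x_N`, then
`A_n(a, c) = ∑_N x_N N^{-a} P_n(2(a-c) log N)`.
2. For `c < 3/2`, `L(E, s)` extends to a meromorphic function on `Re s > c` if and only if for each `ε > 0` there are a nonzero
polynomial `p` with real coefficients and a `C` with `∑_j p_j A_{n-j}(a, c) ≥ - C exp(ε n)` for all `n`; and if and only if for each
`ε > 0` there are a nonzero polynomial `p` with real coefficients and a `C` with `|∑_j p_j A_{n-j}(a, c)| ≤ C exp(ε n)` for all `n`.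
3. If `L(E, s)` does not extend meromorphically to `Re s > c`, then there is a `δ > 0` such that for every nonzero polynomial `p` with
real coefficients infinitely many of the numbers `∑_j p_j A_{n-j}(a, c)` are greater than `exp(δ n)` and infinitely many are less
than `- exp(δ n)`.
4. `L(E, s)` extends to a meromorphic function on `ℂ` if and only if the condition in 2 holds for `c = 0, -1, -2, ...`. -/
theorem result (K : Type) [Field K] [NumberField K] (E : WeierstrassCurve K) [E.IsElliptic]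
    (W : HeightOneSpectrum (𝓞 K) → WeierstrassCurve (𝓞 K)) (_ : MinimalModels E W) (a : ℝ) (ha : 3 / 2 < a) :
    ((∀ k : ℕ, (iteratedDeriv k (ellipticL W) a).im = 0) ∧
      ∀ x : ℕ → ℝ, (∀ s : ℂ, 3 / 2 < s.re → LSeriesHasSum (fun N => (x N : ℂ)) s (ellipticL W s)) →
        ∀ (c : ℝ) (n : ℕ), HasSum (fun N : ℕ => x (N + 1) * ((N : ℝ) + 1) ^ (-a) *
          P n (2 * (a - c) * Real.log ((N : ℝ) + 1))) (A (ellipticL W) a c n)) ∧
    (∀ c : ℝ, c < 3 / 2 →
      ((Continues (ellipticL W) c ↔ ∀ ε : ℝ, 0 < ε → ∃ p : Polynomial ℝ, p ≠ 0 ∧ ∃ C : ℝ, ∀ n : ℕ,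
          -(C * Real.exp (ε * n)) ≤ combination p (A (ellipticL W) a c) n) ∧
        (Continues (ellipticL W) c ↔ ∀ ε : ℝ, 0 < ε → ∃ p : Polynomial ℝ, p ≠ 0 ∧ ∃ C : ℝ, ∀ n : ℕ,
          |combination p (A (ellipticL W) a c) n| ≤ C * Real.exp (ε * n))) ∧
      (¬ Continues (ellipticL W) c → ∃ δ : ℝ, 0 < δ ∧ ∀ p : Polynomial ℝ, p ≠ 0 →
        (∃ᶠ n : ℕ in atTop, Real.exp (δ * n) < combination p (A (ellipticL W) a c) n) ∧
        ∃ᶠ n : ℕ in atTop, combination p (A (ellipticL W) a c) n < -Real.exp (δ * n))) ∧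
    ((∃ g : ℂ → ℂ, MeromorphicOn g Set.univ ∧ ∀ s : ℂ, 3 / 2 < s.re → g s = ellipticL W s) ↔
      ∀ k : ℕ, ∀ ε : ℝ, 0 < ε → ∃ p : Polynomial ℝ, p ≠ 0 ∧ ∃ C : ℝ, ∀ n : ℕ,
        -(C * Real.exp (ε * n)) ≤ combination p (A (ellipticL W) a (-(k : ℝ))) n) := by
  -- the Euler product is the one of the library
  have hL : ellipticL W = Pool.Agent.U156.OS.LE W := by
    funext s
    refine tprod_congr fun v => ?_
    have h1 : (Nat.card {xy : (𝓞 K ⧸ v.asIdeal) × (𝓞 K ⧸ v.asIdeal) //
            ((W v).map (Ideal.Quotient.mk v.asIdeal)).toAffine.Equation xy.1 xy.2}) =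
        Pool.Agent.TH339.MP.affc ((W v).map (Ideal.Quotient.mk v.asIdeal)) := by
      unfold Pool.Agent.TH339.MP.affc
      refine Nat.card_congr (Equiv.subtypeEquivRight fun q => ?_)
      exact WeierstrassCurve.Affine.equation_iff ..
    unfold localFactor Pool.Agent.TH339.MP.elf Pool.Agent.TH339.MP.lfac Pool.Agent.TH339.MP.av
      Pool.Agent.TH339.MP.nm
    rw [h1]
    push_cast
    rfl
  have hd := Pool.Agent.U156.OS.LE_diff W
  have hr := Pool.Agent.U156.OS.LE_conj W
  have htc : ∀ k : ℕ, (Pool.Agent.U156.OS.tc (Pool.Agent.U156.OS.LE W) a k).re =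
      (iteratedDeriv k (Pool.Agent.U156.OS.LE W) a).re / k.factorial := by
    intro k
    unfold Pool.Agent.U156.OS.tc
    have : ((k.factorial : ℂ))⁻¹ = (((k.factorial : ℝ))⁻¹ : ℝ) := by push_cast; rfl
    rw [this, Complex.re_ofReal_mul, inv_mul_eq_div]
  have hA : ∀ c : ℝ, A (ellipticL W) a c = Pool.Agent.U156.OS.AR (Pool.Agent.U156.OS.LE W) a c := by
    intro c
    funext n
    rw [hL]
    unfold A Pool.Agent.U156.OS.AR Pool.Agent.U156.OS.compR
    split_ifs
    · simp only [htc]
      simp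
    · refine Finset.sum_congr rfl fun k _ => ?_
      simp only [htc]
  have hP : ∀ n t, P n t = Pool.Agent.U156.OS.lag n t := fun n t => rfl
  refine ⟨⟨fun k => ?_, fun x hx c n => ?_⟩, fun c hc => ?_, ?_⟩
  · rw [hL]
    have h1 := Pool.Agent.U156.OS.tc_real hd ha hr k
    have h2 := congrArg Complex.im h1
    rw [Complex.ofReal_im] at h2
    unfold Pool.Agent.U156.OS.tc at h2
    have : ((k.factorial : ℂ))⁻¹ = (((k.factorial : ℝ))⁻¹ : ℝ) := by push_cast; rfl
    rw [this, Complex.im_ofReal_mul] at h2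
    rcases mul_eq_zero.1 h2.symm with h3 | h3
    · exfalso
      rw [inv_eq_zero] at h3
      exact (Nat.cast_ne_zero.2 k.factorial_ne_zero) h3
    · exact h3
  · rw [hA]
    rw [hL] at hx
    exact Pool.Agent.U156.OS.AR_dir hd ha hx c n
  · rw [hA, hL]
    obtain ⟨h1, h2⟩ := Pool.Agent.U156.OS.mer_half hd hc ha hr
    refine ⟨⟨h1, h2⟩, fun hn => ?_⟩
    exact Pool.Agent.U156.OS.not_merLow fun h => hn (h1.2 h)
  · rw [hL]
    have h1 := Pool.Agent.U156.OS.mer_all hd (c := fun k : ℕ => -(k : ℝ)) (fun k => by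
      have : (0 : ℝ) ≤ k := Nat.cast_nonneg k
      linarith) (fun x => by
      obtain ⟨k, hk⟩ := exists_nat_gt (-x)
      exact ⟨k, by linarith⟩)
    rw [h1]
    refine forall_congr' fun k => ?_
    have hk : -(k : ℝ) < 3 / 2 := by
      have : (0 : ℝ) ≤ k := Nat.cast_nonneg k
      linarith
    rw [(Pool.Agent.U156.OS.mer_half hd hk ha hr).1, ← hA, hL]
    rfl

end Pool.Agent.Results.MP_0d9be2_nt.OneSidedMeromorphic
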